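import Pool.Agent.Helper72.BAM.Fin

/-!
# Beurling–Ahlfors powers, stage 2 (all exponents): common definitions
-/

set_option autoImplicit false

open MeasureTheory Complex FourierTransform
open scoped ENNReal NNReal

noncomputable section

namespace Helper72.BB

open Helper72.BA

/-- `∫ |f|^p` for a real exponent -/
def nr (p : ℝ) (f : ℂ → ℂ) : ℝ≥0∞ := ∫⁻ z, ‖f z‖ₑ ^ p

/-- fast decaying weight -/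
def gamN (ρ : ℝ) (z : ℂ) : ℝ := (ρ ^ 2)⁻¹ * ((1 + ‖z‖ ^ 2 / ρ ^ 2) ^ 12)⁻¹

/-- majorant of `|g_j|^2` -/
def hj (n : ℕ) (j : ℤ) (f : ℂ → ℂ) (z : ℂ) : ℝ≥0∞ :=
  ∫⁻ w, ENNReal.ofReal (gamN ((2:ℝ) ^ (-j)) (z - w)) * ‖gj n j f w‖ₑ ^ 2

/-- `gam ρ * |g|` -/
def av (ρ : ℝ) (g : ℂ → ℂ) (z : ℂ) : ℝ≥0∞ := ∫⁻ w, ENNReal.ofReal (gam ρ (z - w)) * ‖g w‖ₑ

/-- union of the first `l` windows -/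
def UU (a b : ℕ → ℤ) (l : ℕ) : Finset ℤ := (Finset.range l).biUnion fun i => Finset.Ico (a i) (b i)

/-- harmonic measure of the strip `0 < Re z < 1` seen from `θ`, on the line `Re z = 0` -/
def om0 (θ y : ℝ) : ℝ := Real.sin (Real.pi * θ) / (2 * (Real.cosh (Real.pi * y) - Real.cos (Real.pi * θ)))

/-- the same on the line `Re z = 1` -/
def om1 (θ y : ℝ) : ℝ := Real.sin (Real.pi * θ) / (2 * (Real.cosh (Real.pi * y) + Real.cos (Real.pi * θ)))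

/-- the strip -/
def strip : Set ℂ := {z : ℂ | 0 < z.re ∧ z.re < 1}

/-- ratio of Gamma functions on a vertical line -/
def AA (s τ : ℝ) : ℝ := ‖Complex.Gamma (s + τ * I)‖ / ‖Complex.Gamma (1 - s + τ * I)‖

/-- complex version of `Gc` -/
def Gcc (a : ℂ) : ℂ := Real.pi * Complex.Gamma (a / 2) / Complex.Gamma (1 - a / 2)

/-- cosine transform of a density `ν` -/
def Om (ν : ℝ → ℝ) (β x : ℝ) : ℝ := ∫ y, ν y * Real.cos (β * x * y)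

/-- its derivative -/
def OmD (ν : ℝ → ℝ) (β x : ℝ) : ℝ := -∫ y, ν y * ((β * y) * Real.sin (β * x * y))

/-- tangent property -/
def TP (ν : ℝ → ℝ) (β : ℝ) : Prop :=
  (∀ x x0 : ℝ, Om ν β x ≤ Real.cosh (x - x0) * Om ν β x0 + Real.sinh (x - x0) * OmD ν β x0) ∧
  ∀ x : ℝ, |OmD ν β x| ≤ Om ν β x

/-- `a b Ω(log (a/b))` -/
def TT (Ω : ℝ → ℝ) (a b : ℝ) : ℝ := a * b * Ω (Real.log (a / b))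

/-- the quartic form -/
def Q2 (Ω : ℝ → ℝ) (w : ℂ → ℝ) : ℝ≥0∞ := ∫⁻ s : ℂ, ∫⁻ ξ : ℂ, ∫⁻ η : ℂ,
  ENNReal.ofReal ((‖ξ‖ ^ 2 * ‖s - ξ‖ ^ 2 * ‖η‖ ^ 2 * ‖s - η‖ ^ 2)⁻¹ *
    TT Ω (w ξ * w (s - ξ)) (w η * w (s - η)))

/-- the sextic form -/
def Q3 (Ω : ℝ → ℝ) (w : ℂ → ℝ) : ℝ≥0∞ :=
  ∫⁻ s : ℂ, ∫⁻ ξ₁ : ℂ, ∫⁻ ξ₂ : ℂ, ∫⁻ η₁ : ℂ, ∫⁻ η₂ : ℂ,
  ENNReal.ofReal ((‖ξ₁‖ ^ 2 * ‖ξ₂‖ ^ 2 * ‖s - ξ₁ - ξ₂‖ ^ 2 * (‖η₁‖ ^ 2 * ‖η₂‖ ^ 2 * ‖s - η₁ - η₂‖ ^ 2))⁻¹ *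
    TT Ω (w ξ₁ * w ξ₂ * w (s - ξ₁ - ξ₂)) (w η₁ * w η₂ * w (s - η₁ - η₂)))

/-- bundle of the data of the analytic family: a probability space, functions supported in an annulus -/
structure Fam (T : Type) [MeasurableSpace T] (lam : Measure T) (E : T → ℂ → ℂ) (r1 r2 : ℝ) : Prop where
  prob : lam Set.univ = 1
  r1pos : 0 < r1
  meas : Measurable (Function.uncurry E)
  bdd : ∃ C : ℝ, ∀ t ξ, ‖E t ξ‖ ≤ C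
  supp : ∀ t ξ, E t ξ ≠ 0 → r1 ≤ ‖ξ‖ ∧ ‖ξ‖ ≤ r2
  sq : ∀ ξ, ∫⁻ t, ‖E t ξ‖ₑ ^ 2 ∂lam ≤ 1

/-- weight functions: zero off the annulus, bounded above and below on it -/
structure Wt (w : ℂ → ℝ) (r1 r2 : ℝ) : Prop where
  meas : Measurable w
  zero : ∀ ξ, ¬ (r1 ≤ ‖ξ‖ ∧ ‖ξ‖ ≤ r2) → w ξ = 0
  bds : ∃ w1 w2 : ℝ, 0 < w1 ∧ ∀ ξ, (r1 ≤ ‖ξ‖ ∧ ‖ξ‖ ≤ r2) → w1 ≤ w ξ ∧ w ξ ≤ w2

/-- `F^{-1}[ |ξ|^{-2} w(ξ)^s E_t(ξ) ](x)` -/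
def ext {T : Type} (E : T → ℂ → ℂ) (w : ℂ → ℝ) (s : ℂ) (t : T) (x : ℂ) : ℂ :=
  ∫ ξ : ℂ, ch x ξ * ((((‖ξ‖ ^ 2)⁻¹ : ℝ) : ℂ) * ((w ξ : ℝ) : ℂ) ^ s) * E t ξ

/-- square of the `L²(lam)` norm of `ext` -/
def N2 {T : Type} [MeasurableSpace T] (lam : Measure T) (E : T → ℂ → ℂ) (w : ℂ → ℝ) (s : ℂ) (x : ℂ) : ℝ≥0∞ :=
  ∫⁻ t, ‖ext E w s t x‖ₑ ^ 2 ∂lam

/-- `PE p K`: improved Pitt inequality for the abstract family, exponent `p`, constant `K`. -/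
def PE (p K : ℝ) : Prop := ∀ (lam : Measure ℂ) (E : ℂ → ℂ → ℂ) (r1 r2 : ℝ), Fam ℂ lam E r1 r2 →
    ∀ ρ : ℂ → ℝ, Wt ρ r1 r2 → ∀ c : ℂ → ℂ → ℂ, Measurable (Function.uncurry c) →
    (∀ t x, ‖c t x‖ ≤ 1) → ∀ u : ℂ → ℂ, (∀ x, u x = ∫ t, c t x * ext E ρ 1 t x ∂lam) →
    nr p u ≤ ENNReal.ofReal (K ^ p) * ∫⁻ ξ, ENNReal.ofReal (ρ ξ ^ p / ‖ξ‖ ^ 4)

/-- the constants for `2 < p < 4` -/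
def MM (θ : ℝ) : ℝ := 2 / (4 - θ ^ 2) + 2 / (16 - θ ^ 2) + 2 / (36 - θ ^ 2) + 1 / 7
def KB (θ : ℝ) : ℝ := (4 + θ * (2 - θ) / 3) ^ ((1 - θ) / 4) *
  (Ak 2 ^ 4 / 81 * ((1 - θ ^ 2) / 3 + 17 + 64 * MM θ)) ^ (θ / 4) / (2 - θ) ^ (1 / 2 : ℝ)
/-- the constant for `p = 24/5` -/
def KB5 : ℝ := Ak 2 ^ (1 / 2 : ℝ) * Ak 3 ^ (1 / 2 : ℝ) * (0.899 : ℝ) ^ (1 / 12 : ℝ)

end Helper72.BB
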